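import Pool.Agent.Y667.QK.StmK
import Pool.Agent.Y723.QT.Rf

/-!
# Project QK (helper667): the 2-torsion of the Tate-Shafarevich group over a number field is finite
-/

set_option autoImplicit false

namespace Pool.Agent.Y723.QK

theorem FIN : Pool.Agent.Y667.QK.St_FIN := by
  intro F _ _ A B e1 e2 e3 hD h
  have he : e1 ^ 3 + A * e1 + B = 0 := by
    rw [h e1]
    ring
  have h1 := Pool.Agent.Y723.QT.tf_EF (F := F) hD he
  exact Finite.of_injective (β := {x : Pool.Agent.TH841.NF.D.Sha
    (Pool.Agent.TH841.NF.EF A B F) // x + x = 0})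
    (fun x => ⟨x.1, by rw [← two_nsmul]; exact x.2⟩)
    (fun x y h => Subtype.ext ((Subtype.mk.injEq _ _ _ _).mp h))

end Pool.Agent.Y723.QK
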